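import Mathlib

/-!
# Sums of few dilates control sums of all dilates (helper189)

`V` is a vector space over a finite field `F` and `A ⊆ V` a finite set with `|A + s A| ≤ K |A|` for
all `s` in a set `S ⊆ F` with `|F| < |S| ^ (2 ^ t)`. Then `|A + n A| ≤ K ^ (11 * 6 ^ t) |A|` for all
natural numbers `n`.
-/

set_option autoImplicit false
set_option maxHeartbeats 1000000
open scoped Pointwise

namespace Q189.FD

variable {F V : Type*} [Field F] [AddCommGroup V] [Module F V] [DecidableEq V]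

/-- The dilate `c A`. -/
def dil (c : F) (A : Finset V) : Finset V := A.image (fun x => c • x)

/-- `|A + c A| ≤ K ^ n |A|`. -/
def Sm (A : Finset V) (K : ℝ) (n : ℕ) (c : F) : Prop :=
  ((A + dil c A).card : ℝ) ≤ K ^ n * A.card

theorem card_dil {c : F} (hc : c ≠ 0) (A : Finset V) : (dil c A).card = A.card :=
  Finset.card_image_of_injective _ (smul_right_injective V hc)

theorem dil_add (c : F) (A B : Finset V) : dil c (A + B) = dil c A + dil c B := by
  ext x
  simp only [dil, Finset.mem_image, Finset.mem_add]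
  constructor
  · rintro ⟨_, ⟨a, ha, b, hb, rfl⟩, rfl⟩
    exact ⟨_, ⟨a, ha, rfl⟩, _, ⟨b, hb, rfl⟩, (smul_add c a b).symm⟩
  · rintro ⟨_, ⟨a, ha, rfl⟩, _, ⟨b, hb, rfl⟩, rfl⟩
    exact ⟨_, ⟨a, ha, b, hb, rfl⟩, smul_add c a b⟩

theorem dil_mul (c d : F) (A : Finset V) : dil (c * d) A = dil c (dil d A) := by
  simp [dil, Finset.image_image, Function.comp_def, mul_smul]

theorem dil_one (A : Finset V) : dil (1 : F) A = A := by simp [dil]

theorem dil_zero {A : Finset V} (hA : A.Nonempty) : dil (0 : F) A = {0} := by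
  ext x
  simp only [dil, zero_smul, Finset.mem_image, Finset.mem_singleton]
  constructor
  · rintro ⟨_, _, rfl⟩; rfl
  · rintro rfl
    obtain ⟨a, ha⟩ := hA
    exact ⟨a, ha, rfl⟩

section rules
variable {A : Finset V} {K : ℝ} (hA : A.Nonempty) (hK : 1 ≤ K)
include hA hK

theorem Sm.mono {a b : ℕ} {c : F} (h : Sm A K a c) (hab : a ≤ b) : Sm A K b c := by
  refine h.trans ?_
  gcongr

theorem Sm.zero (n : ℕ) : Sm A K n (0 : F) := by
  unfold Sm
  rw [dil_zero hA, Finset.add_singleton]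
  have h1 : (1 : ℝ) ≤ K ^ n := one_le_pow₀ hK
  have h2 : ((A.image fun x => x + 0).card : ℝ) ≤ A.card := by exact_mod_cast Finset.card_image_le
  have h3 : (0 : ℝ) ≤ A.card := by positivity
  have h4 : ((A.image fun x => x + 0).card : ℝ) ≤ 1 * A.card := by simp
  calc _ ≤ _ := h4
    _ ≤ _ := by gcongr

theorem Sm.mul {a b : ℕ} {c d : F} (h : Sm A K a c) (h' : Sm A K b d) : Sm A K (a + b) (c * d) := by
  by_cases hc : c = 0
  · subst hc; rw [zero_mul]; exact Sm.zero hA hK _
  have hpos : (0 : ℝ) < A.card := by exact_mod_cast hA.card_pos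
  have h1 := Finset.ruzsa_triangle_inequality_add_add_add A (dil c A) (dil (c * d) A)
  have h2 : (dil c A + dil (c * d) A).card = (A + dil d A).card := by
    rw [dil_mul, ← dil_add, card_dil hc]
  rw [h2, card_dil hc] at h1
  have h3 : ((A + dil (c * d) A).card : ℝ) * A.card ≤ (K ^ a * A.card) * (K ^ b * A.card) := by
    calc ((A + dil (c * d) A).card : ℝ) * A.card
        ≤ ((A + dil c A).card : ℝ) * (A + dil d A).card := by exact_mod_cast h1
      _ ≤ _ := by
          unfold Sm at h h'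
          gcongr
  unfold Sm
  rw [pow_add]
  nlinarith

theorem Sm.inv {a : ℕ} {c : F} (h : Sm A K a c) : Sm A K a c⁻¹ := by
  by_cases hc : c = 0
  · subst hc; rw [inv_zero]; exact Sm.zero hA hK _
  unfold Sm at h ⊢
  have h1 : A + dil c⁻¹ A = dil c⁻¹ (A + dil c A) := by
    rw [dil_add, ← dil_mul, inv_mul_cancel₀ hc, dil_one, add_comm]
  rw [h1, card_dil (inv_ne_zero hc)]
  exact h

theorem Sm.neg {a : ℕ} {c : F} (h : Sm A K a c) (h1 : Sm A K 2 (1 : F)) : Sm A K (a + 2) (-c) := by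
  have hpos : (0 : ℝ) < A.card := by exact_mod_cast hA.card_pos
  have e : A + dil (-c) A = A - dil c A := by
    ext x
    simp only [dil, Finset.mem_add, Finset.mem_sub, Finset.mem_image]
    constructor
    · rintro ⟨y, hy, _, ⟨z, hz, rfl⟩, rfl⟩
      exact ⟨y, hy, _, ⟨z, hz, rfl⟩, by rw [neg_smul]; abel⟩
    · rintro ⟨y, hy, _, ⟨z, hz, rfl⟩, rfl⟩
      exact ⟨y, hy, _, ⟨z, hz, rfl⟩, by rw [neg_smul]; abel⟩
  have h2 := Finset.ruzsa_triangle_inequality_sub_add_add A A (dil c A)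
  rw [add_comm (dil c A) A] at h2
  unfold Sm at *
  rw [dil_one] at h1
  rw [e]
  have h3 : ((A - dil c A).card : ℝ) * A.card ≤ (K ^ 2 * A.card) * (K ^ a * A.card) := by
    calc ((A - dil c A).card : ℝ) * A.card
        ≤ ((A + A).card : ℝ) * (A + dil c A).card := by exact_mod_cast h2
      _ ≤ _ := by gcongr
  rw [pow_add]
  nlinarith

theorem Sm.one {c : F} (hc : c ≠ 0) (h : Sm A K 1 c) : Sm A K 2 (1 : F) := by
  have h1 := h.mul hA hK (h.inv hA hK)
  rwa [mul_inv_cancel₀ hc] at h1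

theorem Sm.add {a b : ℕ} {c d : F} (h : Sm A K a c) (h1 : Sm A K 2 (1 : F)) (h' : Sm A K b d) :
    Sm A K (a + b + 10) (c + d) := by
  have hpos : (0 : ℝ) < A.card := by exact_mod_cast hA.card_pos
  unfold Sm at *
  rw [dil_one] at h1
  obtain ⟨X, -, hX, hX'⟩ := Finset.ruzsa_covering_add (A := dil c A) (B := A) (K := K ^ a) hA
    (by rw [add_comm]; exact h)
  obtain ⟨Y, -, hY, hY'⟩ := Finset.ruzsa_covering_add (A := dil d A) (B := A) (K := K ^ b) hA
    (by rw [add_comm]; exact h')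
  have hsub : A + dil (c + d) A ⊆ (X + Y) + ((3 : ℕ) • A - (2 : ℕ) • A) := by
    intro x hx
    obtain ⟨y, hy, z', hz', rfl⟩ := Finset.mem_add.1 hx
    obtain ⟨z, hz, rfl⟩ := Finset.mem_image.1 hz'
    obtain ⟨u, hu, u', hu', e1⟩ := Finset.mem_add.1 (hX' (Finset.mem_image_of_mem _ hz))
    obtain ⟨v, hv, v', hv', e2⟩ := Finset.mem_add.1 (hY' (Finset.mem_image_of_mem _ hz))
    obtain ⟨p, hp, q, hq, rfl⟩ := Finset.mem_sub.1 hu'
    obtain ⟨r, hr, s, hs, rfl⟩ := Finset.mem_sub.1 hv'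
    refine Finset.mem_add.2 ⟨u + v, Finset.add_mem_add hu hv, (y + p + r) - (q + s),
      Finset.mem_sub.2 ⟨y + p + r, ?_, q + s, ?_, rfl⟩, ?_⟩
    · have : (3 : ℕ) • A = A + A + A := by rw [succ_nsmul, two_nsmul]
      rw [this]
      exact Finset.add_mem_add (Finset.add_mem_add hy hp) hr
    · rw [two_nsmul]
      exact Finset.add_mem_add hq hs
    · have : y + (c + d) • z = y + (c • z + d • z) := by rw [add_smul]
      rw [this, ← e1, ← e2]
      abel
  have hpl := Finset.pluennecke_ruzsa_inequality_nsmul_sub_nsmul_add hA A 3 2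
  have hpl' : (((3 : ℕ) • A - (2 : ℕ) • A).card : ℝ) ≤ (((A + A).card : ℝ) / A.card) ^ (3 + 2) * A.card := by
    have := (NNRat.cast_le (K := ℝ)).2 hpl
    push_cast at this
    exact this
  have h2 : ((A + A).card : ℝ) / A.card ≤ K ^ 2 := by
    rw [div_le_iff₀ hpos]; exact h1
  have h3 : (((3 : ℕ) • A - (2 : ℕ) • A).card : ℝ) ≤ K ^ 10 * A.card := by
    refine hpl'.trans ?_
    have : (((A + A).card : ℝ) / A.card) ^ (3 + 2) ≤ (K ^ 2) ^ 5 := by
      gcongr
    calc _ ≤ (K ^ 2) ^ 5 * A.card := by gcongr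
      _ = _ := by rw [← pow_mul]
  calc ((A + dil (c + d) A).card : ℝ) ≤ ((X + Y) + ((3 : ℕ) • A - (2 : ℕ) • A)).card := by
        exact_mod_cast Finset.card_le_card hsub
    _ ≤ ((X + Y).card : ℝ) * ((3 : ℕ) • A - (2 : ℕ) • A).card := by
        exact_mod_cast Finset.card_add_le
    _ ≤ ((X.card : ℝ) * Y.card) * ((3 : ℕ) • A - (2 : ℕ) • A).card := by
        gcongr
        exact_mod_cast Finset.card_add_le
    _ ≤ (K ^ a * K ^ b) * (K ^ 10 * A.card) := by gcongr
    _ = _ := by rw [pow_add, pow_add]; ring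

end rules

/-- The quotients of differences of `X`. -/
def Quo (X : Finset F) (ξ : F) : Prop :=
  ∃ x ∈ X, ∃ y ∈ X, ∃ z ∈ X, ∃ w ∈ X, z ≠ w ∧ ξ = (x - y) * (z - w)⁻¹

theorem quo_zero {X : Finset F} (hX : 2 ≤ X.card) : Quo X (0 : F) := by
  obtain ⟨z, hz, w, hw, h⟩ := Finset.one_lt_card.1 hX
  exact ⟨z, hz, z, hz, z, hz, w, hw, h, by simp⟩

theorem card_of_not_quo [DecidableEq F] {X : Finset F} {ξ : F} (h : ¬ Quo X ξ) :
    ((X ×ˢ X).image fun p => p.1 + ξ * p.2).card = X.card ^ 2 := by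
  rw [Finset.card_image_of_injOn, Finset.card_product, sq]
  rintro ⟨x, y⟩ h1 ⟨x', y'⟩ h2 e
  simp only [Finset.coe_product, Set.mem_prod, Finset.mem_coe] at h1 h2 e
  by_cases hy : y = y'
  · subst hy
    have : x = x' := by simpa using e
    rw [this]
  · exfalso
    apply h
    refine ⟨x', h2.1, x, h1.1, y, h1.2, y', h2.2, hy, ?_⟩
    rw [eq_mul_inv_iff_mul_eq₀ (sub_ne_zero.2 hy)]
    linear_combination e

section main
variable {A : Finset V} {K : ℝ} (hA : A.Nonempty) (hK : 1 ≤ K) (h1 : Sm A K 2 (1 : F))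
include hA hK h1

theorem Sm.quo {a : ℕ} {X : Finset F} (hX : ∀ x ∈ X, Sm A K a x) {ξ : F} (h : Quo X ξ) :
    Sm A K (4 * a + 24) ξ := by
  obtain ⟨x, hx, y, hy, z, hz, w, hw, -, rfl⟩ := h
  have e1 : Sm A K (a + (a + 2) + 10) (x - y) := by
    rw [sub_eq_add_neg]
    exact (hX x hx).add hA hK h1 ((hX y hy).neg hA hK h1)
  have e2 : Sm A K (a + (a + 2) + 10) (z - w) := by
    rw [sub_eq_add_neg]
    exact (hX z hz).add hA hK h1 ((hX w hw).neg hA hK h1)
  exact (e1.mul hA hK (e2.inv hA hK)).mono hA hK (by omega)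

theorem all_of_few [Fintype F] [DecidableEq F] (t : ℕ) : ∀ (a : ℕ) (X : Finset F), 2 ≤ X.card →
    (∀ x ∈ X, Sm A K a x) → Fintype.card F < X.card ^ (2 ^ t) →
    ∀ n : ℕ, Sm A K (6 ^ t * (a + 10)) (n : F) := by
  induction t with
  | zero =>
    intro a X _ _ h
    exfalso
    have := Finset.card_le_univ X
    simp at h
    omega
  | succ t ih =>
    intro a X hX2 hX hc
    by_cases hq : ∀ n : ℕ, Quo X (n : F)
    · intro n
      refine (Sm.quo hA hK h1 hX (hq n)).mono hA hK ?_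
      have h6 : 1 ≤ 6 ^ t := Nat.one_le_pow _ _ (by norm_num)
      calc 4 * a + 24 ≤ 1 * (6 * (a + 10)) := by omega
        _ ≤ 6 ^ t * (6 * (a + 10)) := by gcongr
        _ = _ := by ring
    · -- a first `n` outside
      push Not at hq
      classical
      have hq' : ∃ n : ℕ, ¬ Quo X (n : F) := hq
      set m := Nat.find hq' with hm
      have hm1 : ¬ Quo X (m : F) := Nat.find_spec hq'
      have hm0 : m ≠ 0 := by
        intro h0
        rw [h0] at hm1
        exact hm1 (by simpa using quo_zero hX2)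
      obtain ⟨k, hk⟩ := Nat.exists_eq_succ_of_ne_zero hm0
      have hk1 : Quo X (k : F) := by
        by_contra hcon
        have := Nat.find_min' hq' hcon
        omega
      have hk2 : Sm A K (4 * a + 36) ((k : F) + 1) :=
        ((Sm.quo hA hK h1 hX hk1).add hA hK h1 h1).mono hA hK (by omega)
      have hk3 : ¬ Quo X ((k : F) + 1) := by
        rw [hk] at hm1
        simpa using hm1
      set X' : Finset F := (X ×ˢ X).image fun p => p.1 + ((k : F) + 1) * p.2 with hX'
      have hcard : X'.card = X.card ^ 2 := card_of_not_quo hk3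
      have hsm : ∀ x ∈ X', Sm A K (6 * a + 46) x := by
        intro x hx
        obtain ⟨⟨y, z⟩, hyz, rfl⟩ := Finset.mem_image.1 hx
        rw [Finset.mem_product] at hyz
        have := (hX y hyz.1).add hA hK h1 (hk2.mul hA hK (hX z hyz.2))
        exact this.mono hA hK (by omega)
      intro n
      have h2 : 2 ≤ X'.card := by rw [hcard]; nlinarith
      have h3 : Fintype.card F < X'.card ^ (2 ^ t) := by
        rw [hcard, ← pow_mul, ← pow_succ']
        exact hc
      refine (ih (6 * a + 46) X' h2 hsm h3 n).mono hA hK ?_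
      calc 6 ^ t * (6 * a + 46 + 10) ≤ 6 ^ t * (6 * (a + 10)) := by gcongr; omega
        _ = _ := by ring

end main

/-- **Few dilates control all dilates.** -/
theorem main [Fintype F] (S : Finset F) (t : ℕ) (hS : Fintype.card F < S.card ^ (2 ^ t))
    (A : Finset V) (hA : A.Nonempty) (K : ℝ)
    (h : ∀ s ∈ S, ((A + A.image (fun a => s • a)).card : ℝ) ≤ K * A.card) :
    1 ≤ K ∧ ∀ n : ℕ, ((A + A.image (fun a => n • a)).card : ℝ) ≤ K ^ (11 * 6 ^ t) * A.card := by
  classical
  have hpos : (0 : ℝ) < A.card := by exact_mod_cast hA.card_pos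
  have h2 : 2 ≤ S.card := by
    by_contra hcon
    have h3 : S.card ≤ 1 := by omega
    have h4 : S.card ^ (2 ^ t) ≤ 1 := pow_le_one₀ (by omega) h3
    have h5 := Fintype.one_lt_card (α := F)
    omega
  obtain ⟨s, hs, hs0⟩ : ∃ s ∈ S, s ≠ 0 := by
    obtain ⟨z, hz, w, hw, hzw⟩ := Finset.one_lt_card.1 h2
    by_cases h0 : z = 0
    · exact ⟨w, hw, fun h => hzw (by rw [h0, h])⟩
    · exact ⟨z, hz, h0⟩
  have hK : 1 ≤ K := by
    have h1 := h s hs
    have h2 : (A.card : ℝ) ≤ ((A + A.image (fun a => s • a)).card : ℝ) := by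
      exact_mod_cast Finset.card_le_card_add_right (hA.image _)
    nlinarith
  have hSm : ∀ s ∈ S, Sm A K 1 s := by
    intro s hs
    unfold Sm dil
    rw [pow_one]
    exact h s hs
  have h1 : Sm A K 2 (1 : F) := Sm.one hA hK hs0 (hSm s hs)
  refine ⟨hK, fun n => ?_⟩
  have := all_of_few hA hK h1 t 1 S h2 hSm hS n
  unfold Sm dil at this
  have e : (fun a : V => (n : F) • a) = fun a => n • a := by
    funext a
    exact Nat.cast_smul_eq_nsmul F n a
  rw [e] at this
  rw [show 11 * 6 ^ t = 6 ^ t * (1 + 10) by ring]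
  exact this

end Q189.FD
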